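import Pool.Agent.W670.ML.Defs

/-! ML-CMP: the unconditional comparison. -/

set_option autoImplicit false

namespace Pool.Agent.W683.ML

open NumberField
open Pool.Agent.W670.ML

theorem cmp (h1 : S_IC) (h2 : S_MI) (h3 : S_DI) (h4 : S_AB) : S_CMP := by
  intro K _ _ n G hn hT m hm X
  obtain ⟨-, hMI⟩ := h2 n G hn hT
  obtain ⟨hm1, hmn, hmi⟩ := hMI m hm
  have hac : IsAlgClosure ℚ (AlgebraicClosure K) := IsAlgClosure.ofAlgebraic ℚ K (AlgebraicClosure K)
  have hpos : 0 < n * Module.finrank ℚ K := Nat.mul_pos (by omega) Module.finrank_pos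
  have hinj : Function.Injective (fun L : IntermediateField K (AlgebraicClosure K) =>
      L.restrictScalars ℚ) := by
    intro L L' h
    ext x
    have : x ∈ L.restrictScalars ℚ ↔ x ∈ L'.restrictScalars ℚ := by
      simp only at h
      rw [h]
    exact this
  have hS := Set.ncard_image_of_injective (fields K n G X) hinj
  unfold Pool.Agent.W670.ML.N
  rw [← hS]
  refine (h4 (n * Module.finrank ℚ K) m (AlgebraicClosure K) hpos
    ((fun L : IntermediateField K (AlgebraicClosure K) => L.restrictScalars ℚ) ''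
      (fields K n G X)) (((discr K).natAbs : ℝ) ^ n * X) ?_).2
  rintro M ⟨L, ⟨hL1, hL2, hL3⟩, rfl⟩
  have e : ↥L ≃+* ↥(L.restrictScalars ℚ) := RingEquiv.refl ↥L
  have hfin : Module.finrank ℚ ↥(L.restrictScalars ℚ) = n * Module.finrank ℚ K := by
    have h5 : Module.finrank ℚ ↥(L.restrictScalars ℚ) = Module.finrank ℚ ↥L := rfl
    rw [h5, ← Module.finrank_mul_finrank ℚ K ↥L, hL1.1, mul_comm]
  have hNF : NumberField ↥(L.restrictScalars ℚ) := NumberField.of_ringEquiv (K := ↥L) (L := ↥(L.restrictScalars ℚ)) (e := e)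
  have hdisc : discr ↥(L.restrictScalars ℚ) = discr ↥L := by
    symm
    exact NumberField.discr_eq_discr_of_ringEquiv _ e
  refine ⟨hfin, ⟨hNF, ?_⟩, ?_⟩
  · rw [hdisc, h3.1 K ↥L, hL1.1]
    push_cast
    rw [mul_comm]
    exact mul_le_mul_of_nonneg_left hL3 (by positivity)
  · intro H hH
    exact h1 K (AlgebraicClosure K) n (n * Module.finrank ℚ K) m G H L hL1 hH hmn hmi

end Pool.Agent.W683.ML
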